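import Pool.Agent.H276R3.FQ.TR

/-! Integral points of Fermat curves over imaginary quadratic fields (helper276). -/

set_option autoImplicit false

namespace Pool.Agent.H276R3.FQ

open NumberField NumberField.InfinitePlace

variable {K : Type*} [Field K] [NumberField K]

/-- the norm as a natural number -/
noncomputable def nr (x : 𝓞 K) : ℕ := (Algebra.norm ℤ x).natAbs

/-- the chosen embedding -/
noncomputable def ph (w : InfinitePlace K) : 𝓞 K →+* ℂ := w.embedding.comp (algebraMap (𝓞 K) K)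

omit [NumberField K] in
theorem ph_norm (w : InfinitePlace K) (x : 𝓞 K) : ‖ph w x‖ = w (x : K) :=
  norm_embedding_eq w _

theorem norm_sq {w : InfinitePlace K} (hw : ∀ v : InfinitePlace K, v = w) (hc : w.IsComplex)
    (x : 𝓞 K) : ‖ph w x‖ ^ 2 = (nr x : ℝ) := by
  have h1 := prod_eq_abs_norm (K := K) (x : K)
  rw [Fintype.prod_eq_single w (fun v hv => absurd (hw v) hv), mult,
    if_neg (not_isReal_iff_isComplex.2 hc)] at h1
  rw [ph_norm, h1, ← Algebra.coe_norm_int]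
  unfold nr
  rw [Nat.cast_natAbs]
  push_cast
  simp

omit [NumberField K] in
theorem ph_inj (w : InfinitePlace K) {x : 𝓞 K} (h : ph w x = 0) : x = 0 := by
  have h1 : w.embedding (algebraMap (𝓞 K) K x) = 0 := h
  have h2 := (map_eq_zero w.embedding).1 h1
  exact (FaithfulSMul.algebraMap_injective (𝓞 K) K) (by rw [h2, map_zero])

theorem nr_eq_zero {x : 𝓞 K} (h : nr x = 0) : x = 0 := by
  have : Algebra.norm ℤ x = 0 := Int.natAbs_eq_zero.1 h
  exact Algebra.norm_eq_zero_iff.1 this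

theorem one_le_norm {w : InfinitePlace K} (hw : ∀ v : InfinitePlace K, v = w) (hc : w.IsComplex)
    {x : 𝓞 K} (hx : x ≠ 0) : 1 ≤ ‖ph w x‖ := by
  have h1 := norm_sq hw hc x
  have h2 : 1 ≤ nr x := Nat.one_le_iff_ne_zero.2 (fun h => hx (nr_eq_zero h))
  have h3 : (1:ℝ) ≤ nr x := by exact_mod_cast h2
  rw [← h1] at h3
  by_contra hlt
  have := pow_lt_one₀ (norm_nonneg (ph w x)) (not_le.1 hlt) two_ne_zero
  linarith

theorem unit_norm {w : InfinitePlace K} (hw : ∀ v : InfinitePlace K, v = w) (hc : w.IsComplex)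
    {x : 𝓞 K} (hx : IsUnit x) : ‖ph w x‖ = 1 := by
  obtain ⟨y, hy⟩ := hx.exists_right_inv
  have hx0 : x ≠ 0 := hx.ne_zero
  have hy0 : y ≠ 0 := by rintro rfl; simp at hy
  have h1 := one_le_norm hw hc hx0
  have h2 := one_le_norm hw hc hy0
  have h3 : ‖ph w x‖ * ‖ph w y‖ = 1 := by rw [← norm_mul, ← map_mul, hy, map_one, norm_one]
  nlinarith

theorem unit_root {w : InfinitePlace K} (hw : ∀ v : InfinitePlace K, v = w) (hc : w.IsComplex)
    {x : 𝓞 K} (hx : IsUnit x) : ∃ m : ℕ, 0 < m ∧ (x : K) ^ m = 1 := by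
  obtain ⟨m, hm, h⟩ := Embeddings.pow_eq_one_of_norm_eq_one K ℂ (x := (x : K)) x.isIntegral_coe
    (fun φ => by
      have h1 : ‖φ (x : K)‖ = (mk φ) (x : K) := rfl
      rw [h1, hw (mk φ), ← ph_norm]
      exact unit_norm hw hc hx)
  exact ⟨m, hm, h⟩

/-- odd prime exponent -/
theorem im_prime_one {w : InfinitePlace K} (hw : ∀ v : InfinitePlace K, v = w) (hc : w.IsComplex)
    {p : ℕ} (hp : p.Prime) (h3 : 3 ≤ p) {X Y : 𝓞 K} (h : X ^ p + Y ^ p = 1) (hX : X ≠ 0)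
    (hY : Y ≠ 0) : IsUnit X := by
  have hodd : Odd p := hp.odd_of_ne_two (by omega)
  have hU : IsUnit (X + Y) := by
    apply isUnit_of_dvd_one
    rw [← h]
    exact hodd.add_dvd_pow_add_pow X Y
  obtain ⟨r, hr⟩ := exists_add_pow_prime_eq hp X Y
  have hR : X * Y * r = 0 := by
    by_contra hne
    have h1 : (X + Y) ^ p - 1 = p * (X * Y * r) := by rw [hr, h]; ring
    have h2 : ‖ph w ((X + Y) ^ p - 1)‖ ≤ 2 := by
      rw [map_sub, map_one]
      refine (norm_sub_le _ _).trans ?_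
      rw [unit_norm hw hc (hU.pow p), norm_one]
      norm_num
    have h4 : ‖ph w ((X + Y) ^ p - 1)‖ = p * ‖ph w (X * Y * r)‖ := by
      rw [h1, map_mul, norm_mul, map_natCast, Complex.norm_natCast]
    have h5 := one_le_norm hw hc hne
    have h6 : (3:ℝ) ≤ p := by exact_mod_cast h3
    nlinarith
  have hUp : (X + Y) ^ p = 1 := by
    rw [hr, h]
    have : (p : 𝓞 K) * X * Y * r = p * (X * Y * r) := by ring
    rw [this, hR]; ring
  set U := X + Y with hUdef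
  set X' := X * U ^ (p - 1) with hX'
  set Y' := Y * U ^ (p - 1) with hY'
  have hU0 : U ≠ 0 := hU.ne_zero
  have hs : X' + Y' = 1 := by
    have : X' + Y' = U ^ (p - 1) * U := by rw [hX', hY', hUdef]; ring
    rw [this, ← pow_succ, show p - 1 + 1 = p by omega, hUp]
  have hp' : X' ^ p + Y' ^ p = 1 := by
    have : X' ^ p + Y' ^ p = (X ^ p + Y ^ p) * (U ^ p) ^ (p - 1) := by
      rw [hX', hY', mul_pow, mul_pow, ← add_mul, ← pow_mul, ← pow_mul, mul_comm (p-1) p]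
    rw [this, h, hUp]; simp
  have hX0' : X' ≠ 0 := mul_ne_zero hX (pow_ne_zero _ hU0)
  have hY0' : Y' ≠ 0 := mul_ne_zero hY (pow_ne_zero _ hU0)
  have hexp := add_pow_prime_eq hp X' Y'
  rw [hs, hp', one_pow] at hexp
  set S := ∑ k ∈ Finset.Ioo 0 p, X' ^ (k - 1) * Y' ^ (p - k - 1) * ((p.choose k / p : ℕ) : 𝓞 K)
    with hS
  have hS0 : S = 0 := by
    have h1 : (p : 𝓞 K) * X' * Y' * S = 0 := by linear_combination -hexp
    have hp0 : (p : 𝓞 K) ≠ 0 := by exact_mod_cast hp.ne_zero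
    rcases mul_eq_zero.1 h1 with h2 | h2
    · exact absurd h2 (mul_ne_zero (mul_ne_zero hp0 hX0') hY0')
    · exact h2
  have hdvd : X' ∣ Y' ^ (p - 2) := by
    have h1mem : 1 ∈ Finset.Ioo 0 p := by rw [Finset.mem_Ioo]; omega
    have h1 := Finset.add_sum_erase (Finset.Ioo 0 p)
      (fun k => X' ^ (k - 1) * Y' ^ (p - k - 1) * ((p.choose k / p : ℕ) : 𝓞 K)) h1mem
    rw [← hS, hS0] at h1
    have h2 : X' ∣ ∑ k ∈ (Finset.Ioo 0 p).erase 1,
        X' ^ (k - 1) * Y' ^ (p - k - 1) * ((p.choose k / p : ℕ) : 𝓞 K) := by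
      apply Finset.dvd_sum
      intro k hk
      rw [Finset.mem_erase, Finset.mem_Ioo] at hk
      exact Dvd.dvd.mul_right (Dvd.dvd.mul_right (dvd_pow_self _ (by omega)) _) _
    have h3' : X' ^ (1 - 1) * Y' ^ (p - 1 - 1) * ((p.choose 1 / p : ℕ) : 𝓞 K) = Y' ^ (p - 2) := by
      rw [Nat.choose_one_right, Nat.div_self hp.pos]
      simp [Nat.sub_sub]
    rw [h3'] at h1
    have h4 : Y' ^ (p - 2) = - ∑ k ∈ (Finset.Ioo 0 p).erase 1,
        X' ^ (k - 1) * Y' ^ (p - k - 1) * ((p.choose k / p : ℕ) : 𝓞 K) := by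
      linear_combination h1
    rw [h4]
    exact (dvd_neg).2 h2
  have hcop : IsCoprime X' Y' := ⟨1, 1, by rw [one_mul, one_mul, hs]⟩
  have hXu : IsUnit X' := by
    have h1 : IsCoprime X' (Y' ^ (p - 2)) := hcop.pow_right
    exact h1.isUnit_of_dvd' dvd_rfl hdvd
  exact isUnit_of_mul_isUnit_left (by rw [hX'] at hXu; exact hXu)

theorem im_prime {w : InfinitePlace K} (hw : ∀ v : InfinitePlace K, v = w) (hc : w.IsComplex)
    {p : ℕ} (hp : p.Prime) (h3 : 3 ≤ p) {X Y : 𝓞 K} (h : X ^ p + Y ^ p = 1) (hX : X ≠ 0)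
    (hY : Y ≠ 0) : IsUnit X ∧ IsUnit Y :=
  ⟨im_prime_one hw hc hp h3 h hX hY, im_prime_one hw hc hp h3 (by rw [add_comm]; exact h) hY hX⟩

/-- exponent 8 -/
theorem im_eight {w : InfinitePlace K} (hw : ∀ v : InfinitePlace K, v = w) (hc : w.IsComplex)
    {X Y : 𝓞 K} {e : ℂ} (he : ‖e‖ = 1) (h : ph w X ^ 8 + e * ph w Y ^ 8 = 1) : X = 0 ∨ Y = 0 := by
  set α := ph w X ^ 8 with hα
  set β := e * ph w Y ^ 8 with hβ
  have hXn := norm_sq hw hc X
  have hYn := norm_sq hw hc Y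
  have h1 : ‖α‖ = (nr X : ℝ) ^ 4 := by rw [hα, norm_pow, ← hXn]; ring
  have h2 : ‖β‖ = (nr Y : ℝ) ^ 4 := by rw [hβ, norm_mul, he, norm_pow, ← hYn]; ring
  have h3 : |‖α‖ - ‖β‖| ≤ 1 := by
    have h4 : ‖α - (-β)‖ = 1 := by rw [sub_neg_eq_add, h, norm_one]
    have := abs_norm_sub_norm_le α (-β)
    rw [norm_neg, h4] at this
    exact this
  rw [h1, h2, abs_le] at h3
  have key : ∀ a b : ℕ, ((b : ℝ) ^ 4 ≤ (a : ℝ) ^ 4 + 1) → a < b → a = 0 := by
    intro a b hab hlt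
    by_contra h0
    have ha : 0 < a := Nat.pos_of_ne_zero h0
    have h5 : b ^ 4 ≤ a ^ 4 + 1 := by exact_mod_cast hab
    have h6 : (a + 1) ^ 4 ≤ b ^ 4 := Nat.pow_le_pow_left hlt 4
    have h7 : (a + 1) ^ 4 = a ^ 4 + 4 * a ^ 3 + 6 * a ^ 2 + 4 * a + 1 := by ring
    omega
  rcases lt_trichotomy (nr X) (nr Y) with hlt | heq | hgt
  · left; exact nr_eq_zero (key _ _ (by linarith [h3.1]) hlt)
  · -- equal norms
    have h4 : ‖α‖ = ‖β‖ := by rw [h1, h2, heq]
    have hβ' : β = 1 - α := by linear_combination h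
    have h5 : α.re = 1 / 2 := by
      have h6 : Complex.normSq α = Complex.normSq β := by
        rw [Complex.normSq_eq_norm_sq, Complex.normSq_eq_norm_sq, h4]
      rw [hβ', Complex.normSq_apply, Complex.normSq_apply] at h6
      simp only [Complex.sub_re, Complex.one_re, Complex.sub_im, Complex.one_im] at h6
      nlinarith
    -- the trace of X^4
    set z := ph w X ^ 4 with hz
    have hzα : α = z ^ 2 := by rw [hα, hz]; ring
    have h6 : 2 * z.re = ((nr (X ^ 4 + 1) : ℤ) - (nr (X ^ 4) : ℤ) - 1 : ℤ) := by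
      have h7 := norm_sq hw hc (X ^ 4 + 1)
      have h8 := norm_sq hw hc (X ^ 4)
      rw [map_add, map_pow, map_one, ← hz, ← Complex.normSq_eq_norm_sq, Complex.normSq_apply] at h7
      rw [map_pow, ← hz, ← Complex.normSq_eq_norm_sq, Complex.normSq_apply] at h8
      simp only [Complex.add_re, Complex.one_re, Complex.add_im, Complex.one_im] at h7
      push_cast
      rw [← h7, ← h8]
      ring
    set s : ℤ := (nr (X ^ 4 + 1) : ℤ) - (nr (X ^ 4) : ℤ) - 1 with hs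
    have h9 : z.re ^ 2 + z.im ^ 2 = (nr X : ℝ) ^ 4 := by
      have : ‖z‖ ^ 2 = (nr X : ℝ) ^ 4 := by rw [hz, norm_pow, ← hXn]; ring
      rw [← this, ← Complex.normSq_eq_norm_sq, Complex.normSq_apply]; ring
    have h10 : α.re = z.re ^ 2 - z.im ^ 2 := by
      rw [hzα, sq, Complex.mul_re]; ring
    have h11 : ((s : ℤ) : ℝ) ^ 2 = 1 + 2 * (nr X : ℝ) ^ 4 := by
      rw [← h6]
      rw [h5] at h10
      nlinarith
    have h12 : s.natAbs ^ 2 = 1 + 2 * (nr X) ^ 4 := by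
      have : (s : ℤ) ^ 2 = 1 + 2 * (nr X : ℤ) ^ 4 := by exact_mod_cast h11
      zify
      rw [sq_abs]
      exact this
    left
    exact nr_eq_zero (sq_eq_one_add_two_mul_pow_four h12)
  · right; exact nr_eq_zero (key _ _ (by linarith [h3.2]) hgt)

/-- all exponents `n ≥ 3`, `n ≠ 4` -/
theorem im_main {w : InfinitePlace K} (hw : ∀ v : InfinitePlace K, v = w) (hc : w.IsComplex)
    {n : ℕ} (h3 : 3 ≤ n) (h4 : n ≠ 4) {X Y : 𝓞 K} (hX : X ≠ 0) (hY : Y ≠ 0)
    (h : X ^ n + Y ^ n = 1 ∨ X ^ n - Y ^ n = 1) : IsUnit X ∧ IsUnit Y := by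
  rcases Nat.eq_two_pow_or_exists_odd_prime_and_dvd n with ⟨k, hk⟩ | ⟨p, hp, ⟨m, hm⟩, hodd⟩
  · exfalso
    have hk3 : 3 ≤ k := by
      by_contra hlt
      have : k = 0 ∨ k = 1 ∨ k = 2 := by omega
      rcases this with rfl | rfl | rfl <;> simp at hk <;> omega
    obtain ⟨j, rfl⟩ : ∃ j, k = 3 + j := ⟨k - 3, by omega⟩
    have hn : n = 2 ^ j * 8 := by rw [hk, pow_add]; ring
    rcases h with h | h
    · have h1 : ph w (X ^ (2 ^ j)) ^ 8 + 1 * ph w (Y ^ (2 ^ j)) ^ 8 = 1 := by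
        rw [one_mul, ← map_pow, ← map_pow, ← pow_mul, ← pow_mul, ← hn, ← map_add, h, map_one]
      rcases im_eight hw hc (by simp) h1 with h2 | h2
      · exact hX (pow_eq_zero_iff (by positivity) |>.1 h2)
      · exact hY (pow_eq_zero_iff (by positivity) |>.1 h2)
    · have h1 : ph w (X ^ (2 ^ j)) ^ 8 + (-1) * ph w (Y ^ (2 ^ j)) ^ 8 = 1 := by
        rw [neg_one_mul, ← sub_eq_add_neg, ← map_pow, ← map_pow, ← pow_mul, ← pow_mul, ← hn,
          ← map_sub, h, map_one]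
      rcases im_eight hw hc (by simp) h1 with h2 | h2
      · exact hX (pow_eq_zero_iff (by positivity) |>.1 h2)
      · exact hY (pow_eq_zero_iff (by positivity) |>.1 h2)
  · have hm0 : m ≠ 0 := by rintro rfl; omega
    have hp3 : 3 ≤ p := by
      have := hp.two_le
      rcases hodd with ⟨t, ht⟩
      omega
    have hXm : X ^ m ≠ 0 := pow_ne_zero _ hX
    have hYm : Y ^ m ≠ 0 := pow_ne_zero _ hY
    rcases h with h | h
    · have h1 : (X ^ m) ^ p + (Y ^ m) ^ p = 1 := by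
        rw [← pow_mul, ← pow_mul, mul_comm m p, ← hm, h]
      obtain ⟨h5, h6⟩ := im_prime hw hc hp hp3 h1 hXm hYm
      exact ⟨(isUnit_pow_iff hm0).1 h5, (isUnit_pow_iff hm0).1 h6⟩
    · have h1 : (X ^ m) ^ p + (-(Y ^ m)) ^ p = 1 := by
        rw [hodd.neg_pow, ← pow_mul, ← pow_mul, mul_comm m p, ← hm, ← sub_eq_add_neg, h]
      obtain ⟨h5, h6⟩ := im_prime hw hc hp hp3 h1 hXm (neg_ne_zero.2 hYm)
      exact ⟨(isUnit_pow_iff hm0).1 h5, (isUnit_pow_iff hm0).1 (by simpa using h6)⟩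

end Pool.Agent.H276R3.FQ
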