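import Pool.Agent.H276R3.FQ.TR

/-! Fermat's equation: local analysis of `X+Y` for `X^p+Y^p=1` (helper276). -/

set_option autoImplicit false

namespace Pool.Agent.H276R3.FQ

open NumberField IsDedekindDomain

variable {K : Type*} [Field K] [NumberField K]

/-- residue field argument -/
theorem local_one (v : HeightOneSpectrum (𝓞 K)) {p : ℕ} (hp : p.Prime)
    (hQ : ¬ p ∣ Nat.card (𝓞 K ⧸ v.asIdeal) - 1) {t : K} (ht : v.valuation K t ≤ 1)
    (h : v.valuation K (t ^ p - 1) < 1) : v.valuation K (t - 1) < 1 := by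
  obtain ⟨a, n, han⟩ := v.exists_primeCompl_mul_eq_of_integer t ht
  have hn : v.valuation K (algebraMap (𝓞 K) K n) = 1 := (v.valuation_eq_one_iff_notMem).2 n.2
  have h1 : algebraMap (𝓞 K) K (a ^ p - (n : 𝓞 K) ^ p) =
      (t ^ p - 1) * (algebraMap (𝓞 K) K n) ^ p := by
    rw [map_sub, map_pow, map_pow, ← han]; ring
  have h2 : a ^ p - (n : 𝓞 K) ^ p ∈ v.asIdeal := by
    rw [← v.valuation_lt_one_iff_mem (K := K)]
    change v.valuation K (algebraMap (𝓞 K) K (a ^ p - (n : 𝓞 K) ^ p)) < 1
    rw [h1, map_mul, map_pow, hn, one_pow, mul_one]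
    exact h
  haveI hmax : v.asIdeal.IsMaximal := v.isMaximal
  letI := Ideal.Quotient.field v.asIdeal
  haveI : Finite (𝓞 K ⧸ v.asIdeal) := Ideal.finiteQuotientOfFreeOfNeBot v.asIdeal v.ne_bot
  letI : Fintype (𝓞 K ⧸ v.asIdeal) := Fintype.ofFinite _
  set A := Ideal.Quotient.mk v.asIdeal a with hA
  set N := Ideal.Quotient.mk v.asIdeal (n : 𝓞 K) with hN
  have hN0 : N ≠ 0 := by
    rw [hN, Ne, Ideal.Quotient.eq_zero_iff_mem]
    exact n.2
  have hAN : A ^ p = N ^ p := by
    rw [hA, hN, ← map_pow, ← map_pow]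
    exact (Ideal.Quotient.mk_eq_mk_iff_sub_mem _ _).2 h2
  have hu : (A / N) ^ p = 1 := by rw [div_pow, hAN, div_self (pow_ne_zero _ hN0)]
  have hu0 : A / N ≠ 0 := by
    intro h0
    rw [h0, zero_pow hp.ne_zero] at hu
    exact zero_ne_one hu
  have hu' : (A / N) ^ (Nat.card (𝓞 K ⧸ v.asIdeal) - 1) = 1 := by
    rw [Nat.card_eq_fintype_card]
    exact FiniteField.pow_card_sub_one_eq_one _ hu0
  have hone : A / N = 1 := by
    have h5 := orderOf_dvd_of_pow_eq_one hu
    have h6 := orderOf_dvd_of_pow_eq_one hu'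
    rcases (Nat.dvd_prime hp).1 h5 with h7 | h7
    · exact orderOf_eq_one_iff.1 h7
    · rw [h7] at h6
      exact absurd h6 hQ
  have hAN1 : A = N := by rwa [div_eq_one_iff_eq hN0] at hone
  have h8 : a - (n : 𝓞 K) ∈ v.asIdeal := (Ideal.Quotient.mk_eq_mk_iff_sub_mem _ _).1 hAN1
  have h9 : algebraMap (𝓞 K) K (a - (n : 𝓞 K)) = (t - 1) * algebraMap (𝓞 K) K n := by
    rw [map_sub, ← han]; ring
  have h10 : v.valuation K (algebraMap (𝓞 K) K (a - (n : 𝓞 K))) < 1 :=
    (v.valuation_lt_one_iff_mem (K := K) _).2 h8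
  rw [h9, map_mul, hn, mul_one] at h10
  exact h10

/-- ramification bound -/
theorem ram_bound (v : HeightOneSpectrum (𝓞 K)) {p : ℕ} (hp : p.Prime)
    (h : v.asIdeal ^ (p - 1) ∣ Ideal.span {(p : 𝓞 K)}) : p - 1 ≤ Module.finrank ℚ K := by
  have h1 := Ideal.absNorm_dvd_absNorm_of_le (Ideal.le_of_dvd h)
  have h2 : Ideal.absNorm (Ideal.span {(p : 𝓞 K)}) = p ^ Module.finrank ℚ K := by
    rw [Ideal.absNorm_span_singleton]
    have : ((p : ℕ) : 𝓞 K) = algebraMap ℤ (𝓞 K) (p : ℤ) := by simp
    rw [this, Algebra.norm_algebraMap, RingOfIntegers.rank, Int.natAbs_pow, Int.natAbs_natCast]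
  rw [h2, map_pow] at h1
  rcases Nat.eq_zero_or_pos (p - 1) with h0 | h0
  · omega
  have h3 : Ideal.absNorm v.asIdeal ∣ p ^ Module.finrank ℚ K :=
    (dvd_pow_self _ h0.ne').trans h1
  obtain ⟨f, hf, hf2⟩ := (Nat.dvd_prime_pow hp).1 h3
  have hf0 : f ≠ 0 := by
    rintro rfl
    rw [pow_zero, Ideal.absNorm_eq_one_iff] at hf2
    exact v.isPrime.ne_top hf2
  rw [hf2, ← pow_mul] at h1
  have h4 := (Nat.pow_dvd_pow_iff_le_right hp.one_lt).1 h1
  have : 1 * (p - 1) ≤ f * (p - 1) := Nat.mul_le_mul_right _ (Nat.one_le_iff_ne_zero.2 hf0)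
  omega

theorem local_int (v : HeightOneSpectrum (𝓞 K)) {p : ℕ} (hp : p.Prime) (h3 : 3 ≤ p)
    (hg : Module.finrank ℚ K + 1 < p)
    (hQ : ¬ p ∣ Nat.card (𝓞 K ⧸ v.asIdeal) - 1) {X Y : K} (h : X ^ p + Y ^ p = 1) :
    v.valuation K (X + Y) ≤ 1 := by
  have hodd : Odd p := hp.odd_of_ne_two (by omega)
  have hp0 : p ≠ 0 := hp.ne_zero
  by_contra hc
  rw [not_le] at hc
  -- |X| = |Y| > 1
  have hmax : 1 < max (v.valuation K X) (v.valuation K Y) :=
    lt_of_lt_of_le hc ((v.valuation K).map_add X Y)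
  have hYX : v.valuation K X = v.valuation K Y ∧ 1 < v.valuation K Y := by
    have key : ∀ X Y : K, X ^ p + Y ^ p = 1 → 1 < v.valuation K Y →
        v.valuation K X = v.valuation K Y := by
      intro X Y h hY
      have h1 : X ^ p = 1 - Y ^ p := by linear_combination h
      have h2 : v.valuation K (1 - Y ^ p) = v.valuation K (Y ^ p) := by
        apply Valuation.map_sub_eq_of_lt_right
        rw [map_one, map_pow]
        exact one_lt_pow₀ hY hp0
      rw [← h1, map_pow, map_pow] at h2
      exact (pow_left_inj₀ zero_le zero_le hp0).1 h2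
    rcases lt_max_iff.1 hmax with h1 | h1
    · have := key Y X (by rw [add_comm]; exact h) h1
      exact ⟨this.symm, by rw [this]; exact h1⟩
    · exact ⟨key X Y h h1, h1⟩
  obtain ⟨hXY, hY⟩ := hYX
  have hY0 : Y ≠ 0 := by
    rintro rfl
    rw [map_zero] at hY
    exact absurd hY (not_lt.2 zero_le)
  set t := -X / Y with ht
  set s := t - 1 with hs
  have hvt : v.valuation K t = 1 := by
    rw [ht, map_div₀, Valuation.map_neg, hXY, div_self]
    exact (Valuation.ne_zero_iff _).2 hY0
  have hvs : v.valuation K s ≤ 1 := by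
    rw [hs]
    refine ((v.valuation K).map_sub t 1).trans ?_
    rw [hvt, map_one, max_self]
  have e2 : v.valuation K Y * v.valuation K s = v.valuation K (X + Y) := by
    rw [← map_mul, ← Valuation.map_neg]
    congr 1
    rw [hs, ht]; field_simp; ring
  have e1 : v.valuation K Y ^ p * v.valuation K (t ^ p - 1) = 1 := by
    rw [← map_pow, ← map_mul]
    have : Y ^ p * (t ^ p - 1) = -1 := by
      rw [ht, div_pow, hodd.neg_pow]
      field_simp
      linear_combination -h
    rw [this, Valuation.map_neg, map_one]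
  have hs0 : v.valuation K s ≠ 0 := by
    intro h0
    rw [h0, mul_zero] at e2
    rw [← e2] at hc
    exact absurd hc (not_lt.2 zero_le)
  -- expansion
  have hexp := add_pow_prime_eq hp s (1 : K)
  set S := ∑ k ∈ Finset.Ioo 0 p, s ^ (k - 1) * 1 ^ (p - k - 1) * ((p.choose k / p : ℕ) : K)
    with hS
  have hts : t ^ p - 1 = s ^ p + p * s * S := by
    have : t = s + 1 := by rw [hs]; ring
    rw [this, hexp]; ring
  have hnat : ∀ m : ℕ, v.valuation K (m : K) ≤ 1 := by
    intro m
    have h' : v.valuation K (algebraMap (𝓞 K) K (m : 𝓞 K)) ≤ 1 := v.valuation_le_one (m : 𝓞 K)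
    rwa [map_natCast] at h'
  have hS1 : v.valuation K (S - 1) ≤ v.valuation K s := by
    have h1mem : 1 ∈ Finset.Ioo 0 p := by rw [Finset.mem_Ioo]; omega
    have h1 := Finset.add_sum_erase (Finset.Ioo 0 p)
      (fun k => s ^ (k - 1) * 1 ^ (p - k - 1) * ((p.choose k / p : ℕ) : K)) h1mem
    rw [← hS] at h1
    have h2 : s ^ (1 - 1) * 1 ^ (p - 1 - 1) * ((p.choose 1 / p : ℕ) : K) = 1 := by
      rw [Nat.choose_one_right, Nat.div_self hp.pos]
      simp
    rw [h2] at h1
    rw [← h1, add_sub_cancel_left]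
    apply Valuation.map_sum_le
    intro k hk
    rw [Finset.mem_erase, Finset.mem_Ioo] at hk
    rw [map_mul, map_mul, map_pow, map_pow, map_one, one_pow, mul_one]
    calc v.valuation K s ^ (k - 1) * v.valuation K ((p.choose k / p : ℕ) : K)
        ≤ v.valuation K s ^ (k - 1) * 1 := mul_le_mul_right (hnat _) _
      _ = v.valuation K s ^ (k - 1) := mul_one _
      _ ≤ v.valuation K s ^ 1 := pow_le_pow_right_of_le_one' hvs (by omega)
      _ = v.valuation K s := pow_one _
  have hSle : v.valuation K S ≤ 1 := by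
    have : S = (S - 1) + 1 := by ring
    rw [this]
    refine ((v.valuation K).map_add _ _).trans ?_
    rw [map_one]
    exact max_le (hS1.trans hvs) le_rfl
  have hSone : v.valuation K s < 1 → v.valuation K S = 1 := by
    intro hlt
    have : S = (S - 1) + 1 := by ring
    rw [this, Valuation.map_add_eq_of_lt_right, map_one]
    rw [map_one]
    exact lt_of_le_of_lt hS1 hlt
  by_cases hpv : v.valuation K (p : K) = 1
  · -- v does not divide p
    have htp : v.valuation K (t ^ p - 1) < 1 := by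
      by_contra hge
      rw [not_lt] at hge
      have h1 : 1 < v.valuation K Y ^ p := one_lt_pow₀ hY hp0
      have : 1 < v.valuation K Y ^ p * v.valuation K (t ^ p - 1) :=
        lt_of_lt_of_le h1 (le_mul_of_one_le_right' hge)
      rw [e1] at this
      exact lt_irrefl _ this
    have hslt := local_one v hp hQ hvt.le htp
    have hS' := hSone hslt
    have h1 : v.valuation K (t ^ p - 1) = v.valuation K s := by
      rw [hts, Valuation.map_add_eq_of_lt_right]
      · rw [map_mul, map_mul, hpv, hS', one_mul, mul_one]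
      · rw [map_mul, map_mul, hpv, hS', one_mul, mul_one, map_pow]
        exact pow_lt_self_of_lt_one₀ (zero_lt_iff.2 hs0) hslt (show 1 < p by omega)
    rw [h1] at e1
    have h2 : v.valuation K Y * v.valuation K s ≤ v.valuation K Y ^ p * v.valuation K s := by
      apply mul_le_mul_left
      calc v.valuation K Y = v.valuation K Y ^ 1 := (pow_one _).symm
        _ ≤ v.valuation K Y ^ p := pow_le_pow_right₀ hY.le (by omega)
    rw [e1, e2] at h2
    exact absurd hc (not_lt.2 h2)
  · -- v divides p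
    have hplt : v.valuation K (p : K) < 1 := lt_of_le_of_ne (hnat p) hpv
    have h1 : v.valuation K (t ^ p - 1) < v.valuation K (s ^ p) := by
      have hY1 : (0 : _) < v.valuation K Y ^ p := pow_pos (lt_trans zero_lt_one hY) p
      rw [← mul_lt_mul_iff_right₀ hY1, e1, map_pow, ← mul_pow, e2]
      exact one_lt_pow₀ hc hp0
    have h2 : v.valuation K (p * s * S) = v.valuation K (s ^ p) := by
      have : p * s * S = (t ^ p - 1) - s ^ p := by rw [hts]; ring
      rw [this]
      exact Valuation.map_sub_eq_of_lt_right _ h1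
    have h4 : v.valuation K s ^ (p - 1) = v.valuation K (p : K) * v.valuation K S := by
      have h5 : v.valuation K s ^ (p - 1) * v.valuation K s =
          v.valuation K (p : K) * v.valuation K S * v.valuation K s := by
        rw [← pow_succ, show p - 1 + 1 = p by omega, ← map_pow, ← h2, map_mul, map_mul]
        exact mul_right_comm _ _ _
      exact mul_right_cancel₀ hs0 h5
    have hslt : v.valuation K s < 1 := by
      by_contra hge
      rw [not_lt] at hge
      have h6 : 1 ≤ v.valuation K s ^ (p - 1) := one_le_pow₀ hge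
      rw [h4] at h6
      have h7 : v.valuation K (p : K) * v.valuation K S ≤ v.valuation K (p : K) * 1 :=
        mul_le_mul_right hSle _
      rw [mul_one] at h7
      exact absurd (lt_of_le_of_lt (h6.trans h7) hplt) (lt_irrefl _)
    rw [hSone hslt, mul_one] at h4
    have h8 : v.valuation K (p : K) ≤ WithZero.exp (-((p - 1 : ℕ) : ℤ)) := by
      rw [← h4]
      have hk : WithZero.exp (WithZero.log (v.valuation K s)) = v.valuation K s :=
        WithZero.exp_log hs0
      rw [← hk, ← WithZero.exp_zero, WithZero.exp_lt_exp] at hslt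
      rw [← hk, ← WithZero.exp_nsmul, WithZero.exp_le_exp, nsmul_eq_mul]
      have h0 : (0 : ℤ) ≤ ((p - 1 : ℕ) : ℤ) := Int.natCast_nonneg _
      nlinarith
    have h9 : v.asIdeal ^ (p - 1) ∣ Ideal.span {(p : 𝓞 K)} := by
      rw [← v.intValuation_le_pow_iff_dvd]
      rw [← v.valuation_of_algebraMap (K := K)]
      change v.valuation K (algebraMap (𝓞 K) K (p : 𝓞 K)) ≤ _
      rw [map_natCast]
      exact h8
    have := ram_bound v hp h9
    omega

end Pool.Agent.H276R3.FQ
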