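import Pool.Agent.H276R3.FQ.Im

/-! Integral points of Fermat curves over quadratic fields: assembly (helper276). -/

set_option autoImplicit false

namespace Pool.Agent.H276R3.FQ

open NumberField NumberField.InfinitePlace

variable {K : Type*} [Field K] [NumberField K]

theorem unique_place (hK : Module.finrank ℚ K = 2) {w : InfinitePlace K} (hc : w.IsComplex) :
    ∀ v : InfinitePlace K, v = w := by
  classical
  intro v
  by_contra hne
  have h1 : ∑ u ∈ ({v, w} : Finset (InfinitePlace K)), mult u ≤ ∑ u : InfinitePlace K, mult u :=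
    Finset.sum_le_sum_of_subset (Finset.subset_univ _)
  rw [Finset.sum_pair hne, sum_mult_eq, hK] at h1
  have h2 : mult w = 2 := by rw [mult, if_neg (not_isReal_iff_isComplex.2 hc)]
  have h3 : 0 < mult v := mult_pos
  omega

theorem quad (hK : Module.finrank ℚ K = 2) {n : ℕ} (h3 : 3 ≤ n) (h4 : n ≠ 4) {X Y : K}
    (hX : X ≠ 0) (hY : Y ≠ 0) (h : X ^ n + Y ^ n = 1 ∨ X ^ n - Y ^ n = 1) (hi : IsIntegral ℤ X)
    (hj : IsIntegral ℤ Y) : ∃ m : ℕ, 0 < m ∧ X ^ m = 1 ∧ Y ^ m = 1 := by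
  by_cases hR : ∀ w : InfinitePlace K, w.IsReal
  · exfalso
    rcases Nat.even_or_odd n with he | ho
    · have h4' : 4 ≤ n := by
        rcases he with ⟨t, ht⟩
        omega
      rcases h with h | h
      · rcases tr_even_add hR he h hi with h5 | h5
        · exact hX h5
        · exact hY h5
      · rcases tr_even_sub hR he h4' h hi hj with h5 | h5
        · exact hX h5
        · exact hY h5
    · rcases h with h | h
      · rcases tr_odd_sum hR ho h3 h (hi.add hj) with h5 | h5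
        · exact hX h5
        · exact hY h5
      · have h6 : X ^ n + (-Y) ^ n = 1 := by rw [ho.neg_pow, ← sub_eq_add_neg]; exact h
        rcases tr_odd_sum hR ho h3 h6 (hi.add hj.neg) with h5 | h5
        · exact hX h5
        · exact hY (neg_eq_zero.1 h5)
  · push Not at hR
    obtain ⟨w, hw⟩ := hR
    have hc : w.IsComplex := not_isReal_iff_isComplex.1 hw
    have hu := unique_place hK hc
    obtain ⟨a, ha⟩ : ∃ a : 𝓞 K, algebraMap (𝓞 K) K a = X := ⟨⟨_, hi⟩, rfl⟩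
    obtain ⟨b, hb⟩ : ∃ b : 𝓞 K, algebraMap (𝓞 K) K b = Y := ⟨⟨_, hj⟩, rfl⟩
    have ha0 : a ≠ 0 := by rintro rfl; exact hX (by rw [← ha, map_zero])
    have hb0 : b ≠ 0 := by rintro rfl; exact hY (by rw [← hb, map_zero])
    have h' : a ^ n + b ^ n = 1 ∨ a ^ n - b ^ n = 1 := by
      rcases h with h | h
      · left
        apply FaithfulSMul.algebraMap_injective (𝓞 K) K
        rw [map_add, map_pow, map_pow, map_one, ha, hb, h]
      · right
        apply FaithfulSMul.algebraMap_injective (𝓞 K) K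
        rw [map_sub, map_pow, map_pow, map_one, ha, hb, h]
    obtain ⟨hua, hub⟩ := im_main hu hc h3 h4 ha0 hb0 h'
    obtain ⟨m₁, hm₁, h1⟩ := unit_root hu hc hua
    obtain ⟨m₂, hm₂, h2⟩ := unit_root hu hc hub
    have h1' : X ^ m₁ = 1 := by rw [← ha]; exact h1
    have h2' : Y ^ m₂ = 1 := by rw [← hb]; exact h2
    refine ⟨m₁ * m₂, Nat.mul_pos hm₁ hm₂, ?_, ?_⟩
    · rw [pow_mul, h1', one_pow]
    · rw [mul_comm, pow_mul, h2', one_pow]

omit [NumberField K] in
theorem integral_of_add {n : ℕ} (hn : 0 < n) {X Y : K} (h : X ^ n + Y ^ n = 1)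
    (hi : IsIntegral ℤ X ∨ IsIntegral ℤ Y) : IsIntegral ℤ X ∧ IsIntegral ℤ Y := by
  rcases hi with hi | hi
  · refine ⟨hi, IsIntegral.of_pow hn ?_⟩
    have : Y ^ n = 1 - X ^ n := by linear_combination h
    rw [this]
    exact isIntegral_one.sub (hi.pow n)
  · refine ⟨IsIntegral.of_pow hn ?_, hi⟩
    have : X ^ n = 1 - Y ^ n := by linear_combination h
    rw [this]
    exact isIntegral_one.sub (hi.pow n)

omit [NumberField K] in
theorem integral_of_sub {n : ℕ} (hn : 0 < n) {X Y : K} (h : X ^ n - Y ^ n = 1)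
    (hi : IsIntegral ℤ X ∨ IsIntegral ℤ Y) : IsIntegral ℤ X ∧ IsIntegral ℤ Y := by
  rcases hi with hi | hi
  · refine ⟨hi, IsIntegral.of_pow hn ?_⟩
    have : Y ^ n = X ^ n - 1 := by linear_combination -h
    rw [this]
    exact (hi.pow n).sub isIntegral_one
  · refine ⟨IsIntegral.of_pow hn ?_, hi⟩
    have : X ^ n = 1 + Y ^ n := by linear_combination h
    rw [this]
    exact isIntegral_one.add (hi.pow n)

theorem main (hK : Module.finrank ℚ K = 2) {n : ℕ} (h3 : 3 ≤ n) (h4 : n ≠ 4) {x y z : K}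
    (h : x ^ n + y ^ n = z ^ n) (hx : x ≠ 0) (hy : y ≠ 0) (hz : z ≠ 0)
    (hdiv : IsIntegral ℤ (x / z) ∨ IsIntegral ℤ (y / z) ∨ IsIntegral ℤ (y / x) ∨
      IsIntegral ℤ (z / x) ∨ IsIntegral ℤ (x / y) ∨ IsIntegral ℤ (z / y)) :
    ∃ m : ℕ, 0 < m ∧ (x / z) ^ m = 1 ∧ (y / z) ^ m = 1 := by
  have hn : 0 < n := by omega
  have e1 : (x / z) ^ n + (y / z) ^ n = 1 := by
    rw [div_pow, div_pow, ← add_div, h, div_self (pow_ne_zero n hz)]
  have e2 : (z / x) ^ n - (y / x) ^ n = 1 := by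
    rw [div_pow, div_pow, ← sub_div, ← h, add_sub_cancel_right, div_self (pow_ne_zero n hx)]
  have e3 : (z / y) ^ n - (x / y) ^ n = 1 := by
    rw [div_pow, div_pow, ← sub_div, ← h, add_sub_cancel_left, div_self (pow_ne_zero n hy)]
  have c1 : (IsIntegral ℤ (x / z) ∨ IsIntegral ℤ (y / z)) →
      ∃ m : ℕ, 0 < m ∧ (x / z) ^ m = 1 ∧ (y / z) ^ m = 1 := by
    intro hi
    obtain ⟨i1, i2⟩ := integral_of_add hn e1 hi
    exact quad hK h3 h4 (div_ne_zero hx hz) (div_ne_zero hy hz) (Or.inl e1) i1 i2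
  have c2 : (IsIntegral ℤ (z / x) ∨ IsIntegral ℤ (y / x)) →
      ∃ m : ℕ, 0 < m ∧ (x / z) ^ m = 1 ∧ (y / z) ^ m = 1 := by
    intro hi
    obtain ⟨i1, i2⟩ := integral_of_sub hn e2 hi
    obtain ⟨m, hm, f1, f2⟩ := quad hK h3 h4 (div_ne_zero hz hx) (div_ne_zero hy hx) (Or.inr e2) i1 i2
    have g1 : x / z = (z / x)⁻¹ := by rw [inv_div]
    have g2 : y / z = (y / x) / (z / x) := by field_simp
    exact ⟨m, hm, by rw [g1, inv_pow, f1, inv_one], by rw [g2, div_pow, f1, f2, div_one]⟩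
  have c3 : (IsIntegral ℤ (z / y) ∨ IsIntegral ℤ (x / y)) →
      ∃ m : ℕ, 0 < m ∧ (x / z) ^ m = 1 ∧ (y / z) ^ m = 1 := by
    intro hi
    obtain ⟨i1, i2⟩ := integral_of_sub hn e3 hi
    obtain ⟨m, hm, f1, f2⟩ := quad hK h3 h4 (div_ne_zero hz hy) (div_ne_zero hx hy) (Or.inr e3) i1 i2
    have g1 : y / z = (z / y)⁻¹ := by rw [inv_div]
    have g2 : x / z = (x / y) / (z / y) := by field_simp
    exact ⟨m, hm, by rw [g2, div_pow, f1, f2, div_one], by rw [g1, inv_pow, f1, inv_one]⟩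
  rcases hdiv with h1 | h1 | h1 | h1 | h1 | h1
  · exact c1 (Or.inl h1)
  · exact c1 (Or.inr h1)
  · exact c2 (Or.inr h1)
  · exact c2 (Or.inl h1)
  · exact c3 (Or.inr h1)
  · exact c3 (Or.inl h1)

end Pool.Agent.H276R3.FQ
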