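import Pool.Agent.H276R3.FQ.Loc

/-! Fermat's equation over totally real fields: every nontrivial solution has a prime `𝔮` of norm
`≡ 1 mod p` in the denominator of `(a+b)/c` (helper276). -/

set_option autoImplicit false

namespace Pool.Agent.H276R3.FQ

open NumberField IsDedekindDomain

variable {K : Type*} [Field K] [NumberField K]

theorem exists_prime_tr (hR : ∀ w : InfinitePlace K, w.IsReal) {p : ℕ} (hp : p.Prime) (h3 : 3 ≤ p)
    (hg : Module.finrank ℚ K + 1 < p) {a b c : K} (ha : a ≠ 0) (hb : b ≠ 0) (hc : c ≠ 0)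
    (h : a ^ p + b ^ p + c ^ p = 0) : ∃ v : HeightOneSpectrum (𝓞 K),
      p ∣ Nat.card (𝓞 K ⧸ v.asIdeal) - 1 ∧ 1 < v.valuation K ((a + b) / c) := by
  have hodd : Odd p := hp.odd_of_ne_two (by omega)
  have e1 : (-(a / c)) ^ p + (-(b / c)) ^ p = 1 := by
    rw [hodd.neg_pow, hodd.neg_pow, div_pow, div_pow]
    field_simp
    linear_combination -h
  by_contra hcon
  push Not at hcon
  have hall : ∀ v : HeightOneSpectrum (𝓞 K), v.valuation K (-(a / c) + -(b / c)) ≤ 1 := by
    intro v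
    by_cases hQ : p ∣ Nat.card (𝓞 K ⧸ v.asIdeal) - 1
    · have := hcon v hQ
      have e : -(a / c) + -(b / c) = -((a + b) / c) := by ring
      rw [e, Valuation.map_neg]
      exact this
    · exact local_int v hp h3 hg hQ e1
  obtain ⟨r, hr⟩ := HeightOneSpectrum.mem_integers_of_valuation_le_one K _ hall
  have hint : IsIntegral ℤ (-(a / c) + -(b / c)) := by
    rw [← hr]
    exact r.isIntegral_coe
  rcases tr_odd_sum hR hodd h3 e1 hint with h5 | h5
  · exact div_ne_zero ha hc (neg_eq_zero.1 h5)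
  · exact div_ne_zero hb hc (neg_eq_zero.1 h5)

theorem card_modEq (v : HeightOneSpectrum (𝓞 K)) {p : ℕ}
    (h : p ∣ Nat.card (𝓞 K ⧸ v.asIdeal) - 1) : Ideal.absNorm v.asIdeal ≡ 1 [MOD p] ∧
      p < Ideal.absNorm v.asIdeal := by
  have h1 : Ideal.absNorm v.asIdeal = Nat.card (𝓞 K ⧸ v.asIdeal) := rfl
  have h2 : Ideal.absNorm v.asIdeal ≠ 0 := by
    rw [Ne, Ideal.absNorm_eq_zero_iff]
    exact v.ne_bot
  have h3 : Ideal.absNorm v.asIdeal ≠ 1 := by
    rw [Ne, Ideal.absNorm_eq_one_iff]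
    exact v.isPrime.ne_top
  rw [← h1] at h
  constructor
  · exact ((Nat.modEq_iff_dvd' (by omega)).2 h).symm
  · have := Nat.le_of_dvd (by omega) h
    omega

/-- consequence: denominators with small prime factors -/
theorem no_smooth_denominator (hR : ∀ w : InfinitePlace K, w.IsReal) {p : ℕ} (hp : p.Prime)
    (h3 : 3 ≤ p) (hg : Module.finrank ℚ K + 1 < p) {a b c : K} (ha : a ≠ 0) (hb : b ≠ 0)
    (hc : c ≠ 0) (h : a ^ p + b ^ p + c ^ p = 0) (d : ℕ) (hd0 : 0 < d)
    (hd : ∀ l : ℕ, l.Prime → l ∣ d → l ^ Module.finrank ℚ K ≤ p ∨ l = p) :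
    ¬ IsIntegral ℤ ((d : K) * ((a + b) / c)) := by
  intro hint
  obtain ⟨v, hv, hlt⟩ := exists_prime_tr hR hp h3 hg ha hb hc h
  obtain ⟨hmod, hlt2⟩ := card_modEq v hv
  obtain ⟨r, hr⟩ : ∃ r : 𝓞 K, algebraMap (𝓞 K) K r = (d : K) * ((a + b) / c) := ⟨⟨_, hint⟩, rfl⟩
  have h4 : v.valuation K ((d : K) * ((a + b) / c)) ≤ 1 := by
    rw [← hr]; exact v.valuation_le_one r
  have h5 : v.valuation K (d : K) < 1 := by
    by_contra hge
    rw [not_lt] at hge
    rw [map_mul] at h4
    have : 1 < v.valuation K (d : K) * v.valuation K ((a + b) / c) :=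
      lt_of_lt_of_le hlt (le_mul_of_one_le_left' hge)
    exact absurd h4 (not_le.2 this)
  have h6 : (d : 𝓞 K) ∈ v.asIdeal := by
    rw [← v.valuation_lt_one_iff_mem (K := K)]
    change v.valuation K (algebraMap (𝓞 K) K (d : 𝓞 K)) < 1
    rw [map_natCast]; exact h5
  -- a prime factor of d in v
  have h7 : ∃ l : ℕ, l.Prime ∧ l ∣ d ∧ (l : 𝓞 K) ∈ v.asIdeal := by
    have key : ∀ m : ℕ, 0 < m → (m : 𝓞 K) ∈ v.asIdeal → ∃ l : ℕ, l.Prime ∧ l ∣ m ∧
        (l : 𝓞 K) ∈ v.asIdeal := by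
      intro m
      induction m using Nat.recOnMul with
      | zero => intro h; omega
      | one =>
        intro _ h1
        rw [Nat.cast_one] at h1
        exact absurd ((Ideal.eq_top_iff_one _).2 h1) v.isPrime.ne_top
      | prime q hq => intro _ h1; exact ⟨q, hq, dvd_rfl, h1⟩
      | mul m n hm hn =>
        intro h0 h1
        rw [Nat.cast_mul] at h1
        have hm0 : 0 < m := Nat.pos_of_mul_pos_right h0 |> fun _ => by
          rcases Nat.eq_zero_or_pos m with h | h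
          · rw [h, zero_mul] at h0; omega
          · exact h
        have hn0 : 0 < n := by
          rcases Nat.eq_zero_or_pos n with h | h
          · rw [h, mul_zero] at h0; omega
          · exact h
        rcases v.isPrime.mem_or_mem h1 with h2 | h2
        · obtain ⟨l, hl, hl2, hl3⟩ := hm hm0 h2
          exact ⟨l, hl, hl2.mul_right _, hl3⟩
        · obtain ⟨l, hl, hl2, hl3⟩ := hn hn0 h2
          exact ⟨l, hl, hl2.mul_left _, hl3⟩
    exact key d hd0 h6
  obtain ⟨l, hl, hld, hlv⟩ := h7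
  have h8 : Ideal.absNorm v.asIdeal ∣ l ^ Module.finrank ℚ K := by
    have h9 : Ideal.span {(l : 𝓞 K)} ≤ v.asIdeal := by
      rw [Ideal.span_singleton_le_iff_mem]; exact hlv
    have h10 := Ideal.absNorm_dvd_absNorm_of_le h9
    have h2 : Ideal.absNorm (Ideal.span {(l : 𝓞 K)}) = l ^ Module.finrank ℚ K := by
      rw [Ideal.absNorm_span_singleton]
      have : ((l : ℕ) : 𝓞 K) = algebraMap ℤ (𝓞 K) (l : ℤ) := by simp
      rw [this, Algebra.norm_algebraMap, RingOfIntegers.rank, Int.natAbs_pow, Int.natAbs_natCast]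
    rwa [h2] at h10
  rcases hd l hl hld with h11 | h11
  · have := Nat.le_of_dvd (pow_pos hl.pos _) h8
    omega
  · subst h11
    obtain ⟨f, hf, hf2⟩ := (Nat.dvd_prime_pow hl).1 h8
    have hf0 : f ≠ 0 := by
      rintro rfl
      rw [pow_zero] at hf2
      omega
    have h12 : l ∣ Ideal.absNorm v.asIdeal := by rw [hf2]; exact dvd_pow_self _ hf0
    have h13 : Ideal.absNorm v.asIdeal % l = 1 % l := hmod
    rw [Nat.mod_eq_zero_of_dvd h12, Nat.mod_eq_of_lt hl.one_lt] at h13
    omega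

end Pool.Agent.H276R3.FQ
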