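import Mathlib

/-! Elementary lemmas on real numbers and integers for the integral points of Fermat curves
(helper276). -/

set_option autoImplicit false

namespace Pool.Agent.H276R3.FQ

/-- `X^n+Y^n=1` with `n` odd, `n ≥ 3` forces `0 < X+Y < 2`. -/
theorem real_odd {n : ℕ} (hn : Odd n) {a b : ℝ} (h : a ^ n + b ^ n = 1) : 0 < a + b ∧ a + b < 2 := by
  have hmono : StrictMono (fun x : ℝ => x ^ n) := hn.strictMono_pow
  have n0 : n ≠ 0 := by rintro rfl; simp at hn
  constructor
  · by_contra hc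
    have h1 : a ≤ -b := by linarith
    have h2 : a ^ n ≤ (-b) ^ n := hmono.monotone h1
    rw [hn.neg_pow] at h2
    linarith
  · by_contra hc
    have h1 : 2 - b ≤ a := by linarith
    have key : ∀ a b : ℝ, a ≤ b → 2 ≤ a + b → a ^ n + b ^ n ≠ 1 := by
      intro a b hab h2 h1
      rcases le_or_gt 0 a with ha | ha
      · have hb : 1 ≤ b := by linarith
        have hb' : 1 ≤ b ^ n := one_le_pow₀ hb
        have ha' : 0 ≤ a ^ n := pow_nonneg ha n
        have ha0 : a ^ n = 0 := by linarith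
        have ha0' : a = 0 := by simpa [n0] using ha0
        have hb2 : 2 ≤ b := by linarith
        have hb3 : (1:ℝ) ^ n < b ^ n := hmono (by linarith)
        rw [one_pow] at hb3
        linarith
      · have hb : 2 - a ≤ b := by linarith
        have h3 : (2 - a) ^ n ≤ b ^ n := hmono.monotone hb
        have h4 : (2:ℝ) ^ n + (-a) ^ n ≤ (2 + -a) ^ n :=
          pow_add_pow_le (by norm_num) (by linarith) n0
        rw [hn.neg_pow] at h4
        have h5 : (1:ℝ) ^ n < 2 ^ n := hmono (by norm_num)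
        rw [one_pow] at h5
        have : (2 + -a : ℝ) = 2 - a := by ring
        rw [this] at h4
        linarith
    rcases le_total a b with hab | hab
    · exact key a b hab (by linarith) h
    · exact key b a hab (by linarith) (by linarith)

/-- `X^n+(1-X)^n=1` with `n` odd, `n ≥ 3`, over the reals: `X=0` or `X=1`. -/
theorem real_one {n : ℕ} (hn : Odd n) (h3 : 3 ≤ n) {a : ℝ} (h : a ^ n + (1 - a) ^ n = 1) :
    a = 0 ∨ a = 1 := by
  have n0 : n ≠ 0 := by omega
  have key : ∀ t : ℝ, 0 < t → 1 + t ^ n < (1 + t) ^ n := by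
    intro t ht
    obtain ⟨m, rfl⟩ : ∃ m, n = m + 2 := ⟨n - 2, by omega⟩
    have h1 : (1:ℝ) ^ (m+1) + t ^ (m+1) ≤ (1 + t) ^ (m+1) :=
      pow_add_pow_le (by norm_num) ht.le (by omega)
    rw [one_pow] at h1
    have h2 : (1 + t) ^ (m+2) = (1+t) ^ (m+1) * (1 + t) := by ring
    have h3 : (1 + t ^ (m+1)) * (1 + t) ≤ (1+t) ^ (m+1) * (1 + t) :=
      mul_le_mul_of_nonneg_right h1 (by linarith)
    have h4 : (1 + t ^ (m+1)) * (1 + t) = 1 + t ^ (m+2) + t + t ^ (m+1) := by ring
    have h5 : 0 < t ^ (m+1) := pow_pos ht _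
    rw [h2]
    linarith
  by_contra hc
  push Not at hc
  rcases lt_or_gt_of_ne hc.1 with ha | ha
  · -- a < 0 : t = -a
    have h1 := key (-a) (by linarith)
    rw [hn.neg_pow] at h1
    have : (1 + -a : ℝ) = 1 - a := by ring
    rw [this] at h1
    linarith
  · rcases lt_or_gt_of_ne hc.2 with hb | hb
    · have h1 : a ^ n < a := by
        have := pow_lt_pow_right_of_lt_one₀ ha hb (show 1 < n by omega)
        simpa using this
      have h2 : (1 - a) ^ n < 1 - a := by
        have := pow_lt_pow_right_of_lt_one₀ (show 0 < 1 - a by linarith) (by linarith) (show 1 < n by omega)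
        simpa using this
      linarith
    · have h1 := key (a - 1) (by linarith)
      have h2 : (1 - a) ^ n = - (a - 1) ^ n := by
        rw [← hn.neg_pow]; congr 1; ring
      have h3 : (1 + (a - 1) : ℝ) = a := by ring
      rw [h3] at h1
      rw [h2] at h
      linarith

/-- `a^m-b^m=1` with `a,b≥0` reals, `m ≥ 2`: `0 < a-b ≤ 1`, and `a-b=1` only if `b=0`. -/
theorem real_even {m : ℕ} (hm : 2 ≤ m) {a b : ℝ} (ha : 0 ≤ a) (hb : 0 ≤ b)
    (h : a ^ m - b ^ m = 1) : 0 < a - b ∧ a - b ≤ 1 ∧ (a - b = 1 → b = 0) := by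
  have hab : b < a := by
    by_contra hc
    have := pow_le_pow_left₀ ha (not_lt.1 hc) m
    linarith
  have h1 : (a - b) ^ m + b ^ m ≤ (a - b + b) ^ m :=
    pow_add_pow_le (by linarith) hb (by omega)
  rw [sub_add_cancel] at h1
  refine ⟨by linarith, ?_, ?_⟩
  · by_contra hc
    have : 1 < (a - b) ^ m := one_lt_pow₀ (not_le.1 hc) (by omega)
    linarith
  · intro h2
    by_contra hb0
    have hb1 : 0 < b := lt_of_le_of_ne hb (Ne.symm hb0)
    obtain ⟨k, rfl⟩ : ∃ k, m = k + 2 := ⟨m - 2, by omega⟩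
    have h3 : (1:ℝ) ^ (k+1) + b ^ (k+1) ≤ (1 + b) ^ (k+1) :=
      pow_add_pow_le (by norm_num) hb1.le (by omega)
    rw [one_pow] at h3
    have ha' : a = 1 + b := by linarith
    rw [ha'] at h
    have h4 : (1 + b) ^ (k+2) = (1+b) ^ (k+1) * (1 + b) := by ring
    have h5 : (1 + b ^ (k+1)) * (1 + b) ≤ (1+b) ^ (k+1) * (1 + b) :=
      mul_le_mul_of_nonneg_right h3 (by linarith)
    have h6 : (1 + b ^ (k+1)) * (1 + b) = 1 + b ^ (k+2) + b + b ^ (k+1) := by ring
    have h7 : 0 < b ^ (k+1) := pow_pos hb1 _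
    rw [h4] at h
    linarith

/-- `s^2=1+2a^4` forces `a=0`. -/
theorem sq_eq_one_add_two_mul_pow_four {s a : ℕ} (h : s ^ 2 = 1 + 2 * a ^ 4) : a = 0 := by
  -- s odd
  have hs : s % 2 = 1 := by
    by_contra hc
    have : s % 2 = 0 := by omega
    obtain ⟨t, ht⟩ : 2 ∣ s := Nat.dvd_of_mod_eq_zero this
    rw [ht] at h
    have : 2 * (2 * t ^ 2) = 1 + 2 * a ^ 4 := by rw [← h]; ring
    omega
  obtain ⟨k, hk⟩ : ∃ k, s = 2 * k + 1 := ⟨s / 2, by omega⟩
  have h1 : 2 * (k * (k + 1)) = a ^ 4 := by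
    have : (2 * k + 1) ^ 2 = 1 + 2 * a ^ 4 := by rw [← hk]; exact h
    nlinarith
  have ha2 : a % 2 = 0 := by
    by_contra hc
    have h2 : a % 2 = 1 := by omega
    have h3 : a ^ 4 % 2 = 1 := by rw [Nat.pow_mod, h2]
    omega
  obtain ⟨r, hr⟩ : ∃ r, a = 2 * r := ⟨a / 2, by omega⟩
  have h2 : k * (k + 1) = 8 * r ^ 4 := by
    rw [hr] at h1
    have : (2 * r) ^ 4 = 16 * r ^ 4 := by ring
    omega
  have hcop : Nat.Coprime k (k+1) := by simp
  suffices hr0 : r = 0 by rw [hr, hr0]
  have split8 : 8 ∣ k ∨ 8 ∣ (k + 1) := by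
    have h8 : 8 ∣ k * (k + 1) := ⟨r ^ 4, h2⟩
    rcases Nat.even_or_odd k with he | ho
    · left
      have : Nat.Coprime 8 (k+1) := by
        have : Nat.Coprime (2 ^ 3) (k+1) := by
          apply Nat.Coprime.pow_left
          rw [Nat.coprime_two_left]
          exact Even.add_one he
        simpa using this
      exact this.dvd_of_dvd_mul_right h8
    · right
      have : Nat.Coprime 8 k := by
        have : Nat.Coprime (2 ^ 3) k := by
          apply Nat.Coprime.pow_left
          rw [Nat.coprime_two_left]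
          exact ho
        simpa using this
      exact this.dvd_of_dvd_mul_left h8
  rcases split8 with ⟨m, hm⟩ | ⟨m, hm⟩
  · have h3 : m * (8 * m + 1) = r ^ 4 := by
      rw [hm] at h2
      nlinarith
    have hc : IsUnit (gcd m (8 * m + 1)) := by
      have : Nat.Coprime m (8 * m + 1) := by
        have := Nat.coprime_mul_right_add_right m 1 8
        simp
      rw [Nat.isUnit_iff]
      exact this
    obtain ⟨u, hu⟩ := exists_eq_pow_of_mul_eq_pow hc h3
    have hc' : IsUnit (gcd (8 * m + 1) m) := by rwa [gcd_comm]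
    obtain ⟨v, hv⟩ := exists_eq_pow_of_mul_eq_pow hc' (by rw [mul_comm]; exact h3)
    -- v^4 = 8 u^4 + 1
    have h4 : v ^ 4 = 8 * u ^ 4 + 1 := by rw [← hv, hu]
    -- v odd, v^2 = 4 i + 1
    have hv1 : v % 2 = 1 := by
      by_contra hcc
      have : v % 2 = 0 := by omega
      have h5 : v ^ 4 % 2 = 0 := by rw [Nat.pow_mod, this]
      omega
    obtain ⟨w, hw⟩ : ∃ w, v = 2 * w + 1 := ⟨v / 2, by omega⟩
    set i := w * (w + 1) with hi
    have h5 : v ^ 2 = 4 * i + 1 := by rw [hw, hi]; ring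
    have h6 : i * (2 * i + 1) = (u ^ 2) ^ 2 := by
      have : (v ^ 2) ^ 2 = 8 * u ^ 4 + 1 := by rw [← h4]; ring
      rw [h5] at this
      nlinarith
    have hc2 : IsUnit (gcd i (2 * i + 1)) := by
      rw [Nat.isUnit_iff]
      have : Nat.Coprime i (2 * i + 1) := by simp
      exact this
    obtain ⟨c, hcc⟩ := exists_eq_pow_of_mul_eq_pow hc2 h6
    have h7 : v ^ 2 = (2 * c) ^ 2 + 1 := by rw [h5, hcc]; ring
    have hc0 : c = 0 := by
      by_contra hcn
      have h8 : 2 * c < v := by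
        by_contra h9
        have := Nat.pow_le_pow_left (not_lt.1 h9) 2
        omega
      have h9 : (2 * c + 1) ^ 2 ≤ v ^ 2 := Nat.pow_le_pow_left h8 2
      have : 0 < c := Nat.pos_of_ne_zero hcn
      nlinarith
    have hi0 : i = 0 := by rw [hcc, hc0]; rfl
    have hu0 : u = 0 := by
      rw [hi0] at h6
      have : (u ^ 2) ^ 2 = 0 := by omega
      simpa using this
    rw [hu, hu0] at h3
    have : r ^ 4 = 0 := by rw [← h3]; simp
    simpa using this
  · -- k + 1 = 8 m: (8m-1) m = r^4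
    have hm0 : 0 < m := by omega
    have h3 : m * (8 * m - 1) = r ^ 4 := by
      have hk' : k = 8 * m - 1 := by omega
      rw [hm, hk'] at h2
      have : (8 * m - 1) * (8 * m) = 8 * (m * (8 * m - 1)) := by ring
      omega
    have hc : IsUnit (gcd (8 * m - 1) m) := by
      rw [Nat.isUnit_iff]
      have h9 : Nat.Coprime k (k+1) := hcop
      have hk' : k = 8 * m - 1 := by omega
      rw [hm, hk'] at h9
      exact Nat.Coprime.coprime_mul_left_right h9
    obtain ⟨v, hv⟩ := exists_eq_pow_of_mul_eq_pow hc (by rw [mul_comm]; exact h3)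
    -- v^4 ≡ 7 mod 8
    exfalso
    have h7 : v ^ 4 % 8 = 7 := by omega
    have h8 : v % 8 = 0 ∨ v % 8 = 1 ∨ v % 8 = 2 ∨ v % 8 = 3 ∨ v % 8 = 4 ∨ v % 8 = 5 ∨ v % 8 = 6 ∨
      v % 8 = 7 := by omega
    rw [Nat.pow_mod] at h7
    rcases h8 with h8 | h8 | h8 | h8 | h8 | h8 | h8 | h8 <;> rw [h8] at h7 <;> norm_num at h7

end Pool.Agent.H276R3.FQ
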