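import Pool.Agent.H276R3.FQ.Num

/-! Fermat's equation over totally real fields: integral points and bounded denominators
(helper276). -/

set_option autoImplicit false

namespace Pool.Agent.H276R3.FQ

open NumberField NumberField.InfinitePlace

variable {K : Type*} [Field K] [NumberField K]

theorem eq_zero_of_lt_one {c : K} (hc : IsIntegral ℤ c) (h : ∀ w : InfinitePlace K, w c < 1) :
    c = 0 := by
  by_contra h0
  obtain ⟨w⟩ : Nonempty (InfinitePlace K) := inferInstance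
  obtain ⟨a, rfl⟩ : ∃ a : 𝓞 K, (a : K) = c := ⟨⟨c, hc⟩, rfl⟩
  have ha : a ≠ 0 := by rintro rfl; simp at h0
  have := one_le_of_lt_one (w := w) ha (fun z _ => h z)
  exact absurd (h w) (not_lt.2 this)

theorem exists_one_le {c : K} (hc : IsIntegral ℤ c) (h0 : c ≠ 0) :
    ∃ w : InfinitePlace K, 1 ≤ w c := by
  by_contra hcon
  push Not at hcon
  exact h0 (eq_zero_of_lt_one hc hcon)

/-- odd exponent, `X+Y` integral -/
theorem tr_odd_sum (hR : ∀ w : InfinitePlace K, w.IsReal) {n : ℕ} (hn : Odd n) (h3 : 3 ≤ n)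
    {X Y : K} (h : X ^ n + Y ^ n = 1) (hi : IsIntegral ℤ (X + Y)) : X = 0 ∨ Y = 0 := by
  have h0 : X + Y - 1 = 0 := by
    refine eq_zero_of_lt_one (hi.sub isIntegral_one) (fun w => ?_)
    rw [← norm_embedding_of_isReal (hR w)]
    set φ := embedding_of_isReal (hR w)
    have h1 : φ X ^ n + φ Y ^ n = 1 := by rw [← map_pow, ← map_pow, ← map_add, h, map_one]
    have := real_odd hn h1
    rw [map_sub, map_add, map_one, Real.norm_eq_abs, abs_lt]
    constructor <;> linarith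
  obtain ⟨w⟩ : Nonempty (InfinitePlace K) := inferInstance
  set φ := embedding_of_isReal (hR w)
  have hY : Y = 1 - X := by linear_combination h0
  have h1 : φ X ^ n + (1 - φ X) ^ n = 1 := by
    have : φ (1 - X) = 1 - φ X := by rw [map_sub, map_one]
    rw [← this, ← map_pow, ← map_pow, ← map_add, ← hY, h, map_one]
  rcases real_one hn h3 h1 with h2 | h2
  · left; exact (map_eq_zero φ).1 h2
  · right
    have : φ Y = 0 := by rw [hY, map_sub, map_one, h2, sub_self]
    exact (map_eq_zero φ).1 this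

theorem tr_even_add (hR : ∀ w : InfinitePlace K, w.IsReal) {n : ℕ} (hn : Even n)
    {X Y : K} (h : X ^ n + Y ^ n = 1) (hi : IsIntegral ℤ X) : X = 0 ∨ Y = 0 := by
  by_contra hcon
  push Not at hcon
  obtain ⟨w, hw⟩ := exists_one_le hi hcon.1
  rw [← norm_embedding_of_isReal (hR w)] at hw
  set φ := embedding_of_isReal (hR w)
  have h1 : φ X ^ n + φ Y ^ n = 1 := by rw [← map_pow, ← map_pow, ← map_add, h, map_one]
  have h3 : 1 ≤ φ X ^ n := by
    rw [← hn.pow_abs]
    exact one_le_pow₀ (by rwa [Real.norm_eq_abs] at hw)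
  have h4 : 0 < φ Y ^ n := by
    apply hn.pow_pos
    intro h5
    exact hcon.2 ((map_eq_zero φ).1 h5)
  linarith

theorem tr_even_sub (hR : ∀ w : InfinitePlace K, w.IsReal) {n : ℕ} (hn : Even n) (h4 : 4 ≤ n)
    {X Y : K} (h : X ^ n - Y ^ n = 1) (hi : IsIntegral ℤ X) (hj : IsIntegral ℤ Y) :
    X = 0 ∨ Y = 0 := by
  obtain ⟨m, hm⟩ := hn
  have hm2 : 2 ≤ m := by omega
  have key : ∀ w : InfinitePlace K, ∀ φ : K →+* ℝ, 0 < φ (X ^ 2 - Y ^ 2) ∧
      φ (X ^ 2 - Y ^ 2) ≤ 1 ∧ (φ (X ^ 2 - Y ^ 2) = 1 → Y = 0) := by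
    intro w φ
    have h1 : (φ X ^ 2) ^ m - (φ Y ^ 2) ^ m = 1 := by
      rw [← pow_mul, ← pow_mul, ← map_pow, ← map_pow, ← map_sub]
      rw [show 2 * m = n by omega, h, map_one]
    have := real_even hm2 (sq_nonneg (φ X)) (sq_nonneg (φ Y)) h1
    rw [map_sub, map_pow, map_pow]
    refine ⟨this.1, this.2.1, fun h5 => ?_⟩
    have h6 := this.2.2 h5
    have h7 : φ Y = 0 := by simpa using h6
    exact (map_eq_zero φ).1 h7
  have hc0 : X ^ 2 - Y ^ 2 ≠ 0 := by
    intro h0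
    obtain ⟨w⟩ : Nonempty (InfinitePlace K) := inferInstance
    have := (key w (embedding_of_isReal (hR w))).1
    rw [h0, map_zero] at this
    exact lt_irrefl _ this
  obtain ⟨w, hw⟩ := exists_one_le ((hi.pow 2).sub (hj.pow 2)) hc0
  rw [← norm_embedding_of_isReal (hR w)] at hw
  obtain ⟨k1, k2, k3⟩ := key w (embedding_of_isReal (hR w))
  right
  apply k3
  rw [Real.norm_eq_abs, abs_of_pos k1] at hw
  exact le_antisymm k2 hw

/-- bounded denominators: `X^p+Y^p=1`, `dX`, `dY` integral, `d^g ≤ p` -/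
theorem tr_denom (hR : ∀ w : InfinitePlace K, w.IsReal) {p : ℕ} (hp : p.Prime) (h3 : 3 ≤ p)
    {d : ℕ} (hd0 : 0 < d) (hd : d ^ Module.finrank ℚ K ≤ p)
    {X Y : K} (h : X ^ p + Y ^ p = 1) (hi : IsIntegral ℤ ((d : K) * X))
    (hj : IsIntegral ℤ ((d : K) * Y)) : X = 0 ∨ Y = 0 := by
  have hodd : Odd p := hp.odd_of_ne_two (by omega)
  have hdK : (d : K) ≠ 0 := by exact_mod_cast hd0.ne'
  obtain ⟨a, ha⟩ : ∃ a : 𝓞 K, algebraMap (𝓞 K) K a = (d : K) * X := ⟨⟨_, hi⟩, rfl⟩
  obtain ⟨b, hb⟩ : ∃ b : 𝓞 K, algebraMap (𝓞 K) K b = (d : K) * Y := ⟨⟨_, hj⟩, rfl⟩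
  have hab : a ^ p + b ^ p = (d : 𝓞 K) ^ p := by
    apply FaithfulSMul.algebraMap_injective (𝓞 K) K
    rw [map_add, map_pow, map_pow, map_pow, map_natCast, ha, hb, mul_pow, mul_pow, ← mul_add, h,
      mul_one]
  -- (a+b-d)^p = p t
  obtain ⟨r, hr⟩ := exists_add_pow_prime_eq hp a b
  obtain ⟨s, hs⟩ := exists_add_pow_prime_eq hp (a + b) (-(d : 𝓞 K))
  have h1 : (a + b - d) ^ p = p * (a * b * r + (a + b) * (-(d : 𝓞 K)) * s) := by
    have : (a + b - d) ^ p = (a + b + -(d : 𝓞 K)) ^ p := by rw [sub_eq_add_neg]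
    rw [this, hs, hodd.neg_pow, hr, hab]
    ring
  set c : 𝓞 K := a + b - d with hc
  set t : 𝓞 K := a * b * r + (a + b) * (-(d : 𝓞 K)) * s with ht
  -- norms
  have h2 : Algebra.norm ℤ c ^ p = (p : ℤ) ^ Module.finrank ℚ K * Algebra.norm ℤ t := by
    rw [← map_pow, h1, map_mul]
    congr 1
    have : ((p : ℕ) : 𝓞 K) = algebraMap ℤ (𝓞 K) (p : ℤ) := by simp
    rw [this, Algebra.norm_algebraMap, RingOfIntegers.rank]
  have hg : 0 < Module.finrank ℚ K := Module.finrank_pos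
  have h3' : (p : ℤ) ∣ Algebra.norm ℤ c := by
    have : (p : ℤ) ∣ Algebra.norm ℤ c ^ p := by
      rw [h2]
      exact Dvd.dvd.mul_right (dvd_pow_self _ hg.ne') _
    exact (Nat.prime_iff_prime_int.1 hp).dvd_of_dvd_pow this
  -- size
  have hcK : algebraMap (𝓞 K) K c = d * (X + Y - 1) := by
    rw [hc, map_sub, map_add, map_natCast, ha, hb]
    ring
  have hφ : ∀ w : InfinitePlace K, w (c : K) < d := by
    intro w
    rw [← norm_embedding_of_isReal (hR w)]
    set φ := embedding_of_isReal (hR w)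
    have h4 : φ X ^ p + φ Y ^ p = 1 := by rw [← map_pow, ← map_pow, ← map_add, h, map_one]
    have h5 := real_odd hodd h4
    have h6 : φ (c : K) = d * (φ X + φ Y - 1) := by
      change φ (algebraMap (𝓞 K) K c) = _
      rw [hcK, map_mul, map_natCast, map_sub, map_add, map_one]
    rw [h6, Real.norm_eq_abs, abs_mul, Nat.abs_cast]
    have h7 : |φ X + φ Y - 1| < 1 := by rw [abs_lt]; constructor <;> linarith
    have h8 : (0:ℝ) < d := by exact_mod_cast hd0
    calc (d:ℝ) * |φ X + φ Y - 1| < d * 1 := mul_lt_mul_of_pos_left h7 h8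
      _ = d := mul_one _
  have hc0 : c = 0 := by
    by_contra hne
    have h5 : |(Algebra.norm ℚ (c : K))| < (d : ℝ) ^ Module.finrank ℚ K := by
      rw [← prod_eq_abs_norm, ← sum_mult_eq (K := K), ← Finset.prod_pow_eq_pow_sum]
      refine Finset.prod_lt_prod_of_nonempty (fun w _ => ?_) (fun w _ => ?_) Finset.univ_nonempty
      · exact pow_pos (pos_iff.mpr ((Subalgebra.coe_eq_zero _).not.mpr hne)) _
      · exact pow_lt_pow_left₀ (hφ w) (apply_nonneg _ _) (by rw [mult]; split_ifs <;> norm_num)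
    rw [← Algebra.coe_norm_int] at h5
    have h6 : |Algebra.norm ℤ c| < (d : ℤ) ^ Module.finrank ℚ K := by
      have : ((|Algebra.norm ℤ c| : ℤ) : ℝ) < (((d : ℤ) ^ Module.finrank ℚ K : ℤ) : ℝ) := by
        push_cast
        simpa using h5
      exact_mod_cast this
    have h7 : (p : ℤ) ≤ |Algebra.norm ℤ c| := by
      have := Int.le_of_dvd (abs_pos.2 (Algebra.norm_ne_zero_iff.mpr hne)) ((dvd_abs _ _).2 h3')
      exact this
    have h8 : ((d : ℤ) ^ Module.finrank ℚ K) ≤ p := by exact_mod_cast hd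
    omega
  have h9 : X + Y = 1 := by
    rw [hc0, map_zero] at hcK
    have h10 : (d : K) * (X + Y - 1) = 0 := hcK.symm
    rcases mul_eq_zero.1 h10 with h11 | h11
    · exact absurd h11 hdK
    · linear_combination h11
  exact tr_odd_sum hR hodd h3 h (by rw [h9]; exact isIntegral_one)

end Pool.Agent.H276R3.FQ
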